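import Pool.Agent.K7.H89.ORD.Main

set_option autoImplicit false

namespace Pool.Agent.K7.H89.ORD

variable {adj : ℕ → ℕ → Prop}

/-- the smallest pure vertex of the class of `(u, v)` is the first vertex `i` -/
def TW (adj : ℕ → ℕ → Prop) (u v i : ℕ) : Prop :=
  Tail adj (u, v) i ∧ ¬ Head adj (u, v) i ∧ ∀ j < i, (Tail adj (u, v) j ↔ Head adj (u, v) j)

theorem tail_congr (hs : ∀ i j, adj i j → adj j i) {p q : ℕ × ℕ} (h : Cls adj p q) (i : ℕ) :
    Tail adj p i ↔ Tail adj q i :=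
  ⟨fun ⟨j, hj⟩ => ⟨j, (h.symm hs).trans hj⟩, fun ⟨j, hj⟩ => ⟨j, h.trans hj⟩⟩

theorem head_congr (hs : ∀ i j, adj i j → adj j i) {p q : ℕ × ℕ} (h : Cls adj p q) (i : ℕ) :
    Head adj p i ↔ Head adj q i :=
  ⟨fun ⟨j, hj⟩ => ⟨j, (h.symm hs).trans hj⟩, fun ⟨j, hj⟩ => ⟨j, h.trans hj⟩⟩

theorem TW.congr (hs : ∀ i j, adj i j → adj j i) {u v u' v' i : ℕ}
    (h : Cls adj (u, v) (u', v')) (ht : TW adj u v i) : TW adj u' v' i :=
  ⟨(tail_congr hs h i).1 ht.1, fun e => ht.2.1 ((head_congr hs h i).2 e), fun j hj => by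
    rw [← tail_congr hs h j, ← head_congr hs h j]
    exact ht.2.2 j hj⟩

theorem head_rev {u v i : ℕ} : Head adj (v, u) i ↔ Tail adj (u, v) i :=
  ⟨fun ⟨j, hj⟩ => ⟨j, by simpa using hj.rev⟩, fun ⟨j, hj⟩ => ⟨j, by simpa using hj.rev⟩⟩

theorem tail_rev {u v i : ℕ} : Tail adj (v, u) i ↔ Head adj (u, v) i :=
  ⟨fun ⟨j, hj⟩ => ⟨j, by simpa using hj.rev⟩, fun ⟨j, hj⟩ => ⟨j, by simpa using hj.rev⟩⟩

theorem ori_T (hs : ∀ i j, adj i j → adj j i) : Ori adj (T adj) where
  nt u v h := h.1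
  imp u v y x h hi := by
    obtain ⟨_, i, hi'⟩ := h
    exact ⟨⟨(u, v), hi.symm hs⟩, i,
      TW.congr hs (Relation.ReflTransGen.single hi) (show TW adj u v i from hi')⟩
  asymm u v h h' := by
    obtain ⟨_, i, h1, h2, h3⟩ := h
    obtain ⟨_, j, g1, g2, g3⟩ := h'
    rw [tail_rev] at g1
    rw [head_rev] at g2
    rcases lt_trichotomy i j with hij | hij | hij
    · have := g3 i hij
      exact h2 (tail_rev.1 (this.2 (head_rev.2 h1)))
    · subst hij
      exact h2 g1
    · exact g2 ((h3 j hij).2 g1)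

/-- there is no cyclic triangle -/
theorem noTri (hs : ∀ i j, adj i j → adj j i) (hirr : ∀ i, ¬ adj i i) (a b c : ℕ) :
    ¬ Tri (T adj) a b c := by
  classical
  intro h0
  have hT := ori_T (adj := adj) hs
  -- the smallest pure vertex of a class of a cyclic triangle
  have hex : ∃ m, ∃ a b c, Tri (T adj) a b c ∧ TW adj a b m := by
    obtain ⟨_, m, hm⟩ := h0.1
    exact ⟨m, a, b, c, h0, hm⟩
  obtain ⟨a1, b1, c1, ht1, hm1⟩ := Nat.find_spec hex
  have hmin : ∀ a b c i, Tri (T adj) a b c → TW adj a b i → Nat.find hex ≤ i :=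
    fun a b c i h1 h2 => Nat.find_min' hex ⟨a, b, c, h1, h2⟩
  generalize Nat.find hex = m at hm1 hmin
  -- we may assume that `m` is the first vertex of the triangle
  obtain ⟨b, c, ht, hm⟩ : ∃ b c, Tri (T adj) m b c ∧ TW adj m b m := by
    obtain ⟨j, hj⟩ := hm1.1
    have hm' : TW adj m j m := hm1.congr hs hj
    rcases cls_cases hs hj with hr | ⟨⟨a', b'⟩, hr, hi⟩
    · exact ⟨j, c1, (triR2 hs hT ht1 hr).1, hm'⟩
    · have ht2 := (triR2 hs hT ht1 hr).1
      rcases types hs hT ht2 hi with ⟨z, _, _, hz⟩ | ⟨z, _, _, hz⟩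
      · exact ⟨j, z, hz, hm'⟩
      · exact ⟨j, z, hz, hm'⟩
  -- the class of `(c, m)`
  obtain ⟨_, i, hi⟩ := ht.2.2
  have hmi := hmin c m b i ht.rot.rot hi
  have hne : m ≠ i := by
    rintro rfl
    exact hi.2.1 ⟨c, Relation.ReflTransGen.refl⟩
  have htail : Tail adj (c, m) m :=
    (hi.2.2 m (lt_of_le_of_ne hmi hne)).2 ⟨c, Relation.ReflTransGen.refl⟩
  obtain ⟨j, hj⟩ := htail
  rcases cls_cases hs hj with hr | ⟨⟨c', a'⟩, hr, hlink⟩
  · have h2 := (triR2 hs hT ht.rot.rot hr).1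
    exact hT.asymm _ _ ht.1 h2.2.2
  · obtain ⟨ht2, hr2, _⟩ := triR2 hs hT ht.rot.rot hr
    -- `ht2 : Tri c' a' b`, `hr2 : (m, b) ~ (a', b)`
    rcases types hs hT ht2 hlink with ⟨z, h1, _, _⟩ | ⟨z, h1, h2, hz⟩
    · -- type I
      exact hm.2.1 ⟨z, (r2_cls hs hr2).tail h1⟩
    · -- type J
      -- `Tri c' m b`
      have hr3 : R2 adj (a', b) (m, b) := by
        have : ∀ p q, R2 adj p q → R2 adj q p := by
          intro p q hpq
          induction hpq with
          | refl => exact Relation.ReflTransGen.refl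
          | tail _ hbc ih =>
            obtain ⟨r, e1, e2⟩ := hbc
            exact Relation.ReflTransGen.head ⟨r, e2, e1⟩ ih
        exact this _ _ hr2
      obtain ⟨ht3, _, hr4⟩ := triR2 hs hT ht2.rot hr3
      -- `ht3 : Tri m b c'`, `hr4 : (c', a') ~ (c', m)`
      have hu := unif hs hT ht3.2.1 ht3.2.2 ht3.1 h2
      -- `adj m m ↔ adj m z`
      have hmz : ¬ adj m z := fun e => hirr m (by tauto)
      obtain ⟨⟨s, t⟩, g1, g2, g3, g4⟩ := hT.nt _ _ ht3.2.2
      simp only at g1 g2 g3 g4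
      -- `s` is seen by `m`, not by `c'`
      have hcz : adj c' z := h2.2.1
      have e1 : Imp adj (c', m) (s, z) := ⟨hcz, g2, g3, hmz⟩
      have hbz : ¬ adj b z := h2.2.2.1
      have hTri : Tri (T adj) c' m b := ht3.rot.rot
      have hbs : ¬ adj b s := fun e =>
        hbz ((unif hs hT hTri.1 hTri.2.1 hTri.2.2 e1).2 e)
      -- `hz : Tri m j z`, `(m, j) ~ (s, z)`
      have e2 : Imp adj (c', a') (m, j) := hlink
      have hr5 : R2 adj (m, j) (s, z) := by
        -- `(m, j) - (c', a') = (c', m) - (s, z)`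
        have : ∀ p q, R2 adj p q → ∀ r, Imp adj p r → ∀ r', Imp adj q r' → R2 adj r r' := by
          intro p q hpq
          induction hpq with
          | refl => exact fun r hr r' hr' =>
              Relation.ReflTransGen.single ⟨p, hr.symm hs, hr'.symm hs⟩
          | @tail b1 c2 _ hbc ih =>
            intro r hr r' hr'
            obtain ⟨t1, k1, k2⟩ := hbc
            exact (ih r hr t1 k1).tail ⟨c2, k2.symm hs, hr'.symm hs⟩
        exact this _ _ hr4 _ e2 _ e1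
      have h6 := (triR2 hs hT hz hr5).1
      exact hT.asymm _ _ h6.2.1 h6.2.1

/-- same side -/
theorem sameSide (hs : ∀ i j, adj i j → adj j i) {S : ℕ → ℕ → Prop} (h : Ori adj S) {a b c : ℕ}
    (hab : S a b) (hbc : S b c) : ∃ q, Imp adj (a, c) q := by
  obtain ⟨⟨y, x⟩, h1, h2, h3, h4⟩ := h.nt _ _ hab
  obtain ⟨⟨s, t⟩, g1, g2, g3, g4⟩ := h.nt _ _ hbc
  simp only at h1 h2 h3 h4 g1 g2 g3 g4
  by_contra hno
  -- `N(a) ⊆ N(c)` or `N(c) ⊆ N(a)`
  have hdi : (∀ p, adj a p → adj c p) ∨ (∀ p, adj c p → adj a p) := by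
    by_contra hcon
    push Not at hcon
    obtain ⟨⟨p, hp1, hp2⟩, ⟨q, hq1, hq2⟩⟩ := hcon
    exact hno ⟨(q, p), hp1, hq1, hq2, hp2⟩
  rcases hdi with hd | hd
  · -- `a ⊆ c`: `(a, b) - (t, x) - (c, b)`
    have hat : ¬ adj a t := fun e => g4 (hd _ e)
    have e1 : Imp adj (a, b) (t, x) := ⟨h1, g1, hat, h4⟩
    have e2 : Imp adj (c, b) (t, x) := ⟨hd _ h1, g1, g4, h4⟩
    exact h.asymm _ _ hbc (h.i2 hs hab ⟨_, e1, e2⟩)
  · -- `c ⊆ a`: `(a, b) - (y, s) - (c, b)`
    have hcy : ¬ adj c y := fun e => h3 (hd _ e)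
    have e1 : Imp adj (a, b) (y, s) := ⟨hd _ g2, h2, h3, g3⟩
    have e2 : Imp adj (c, b) (y, s) := ⟨g2, h2, hcy, g3⟩
    exact h.asymm _ _ hbc (h.i2 hs hab ⟨_, e1, e2⟩)

/-- in a graph with a strong ordering every nontrivial pair is oriented -/
theorem total (hs : ∀ i j, adj i j → adj j i) {n : ℕ} (hlt : ∀ i j, adj i j → i < n) {ρ : ℕ → ℕ}
    (hρ : SOrd adj n ρ) {u v : ℕ} (hq : ∃ q, Imp adj (u, v) q) : T adj u v ∨ T adj v u := by
  classical
  -- links do not change the direction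
  have hne : ∀ p q : ℕ × ℕ, Imp adj p q → ρ q.1 ≠ ρ q.2 := by
    rintro ⟨a, b⟩ ⟨y, x⟩ ⟨h1, h2, h3, h4⟩ he
    simp only at h1 h2 h3 h4 he
    have := hρ.1 y (hlt _ _ (hs _ _ h2)) x (hlt _ _ (hs _ _ h1)) he
    subst this
    exact h3 h1
  have hdir : ∀ p q : ℕ × ℕ, Imp adj p q → ρ p.1 < ρ p.2 → ρ q.1 < ρ q.2 := by
    rintro ⟨a, b⟩ ⟨y, x⟩ hi hlt'
    by_contra hcon
    have h5 : ρ x < ρ y := lt_of_le_of_ne (not_lt.1 hcon) (Ne.symm (hne _ _ hi))
    rcases hρ.2 a b x y hlt' h5 hi.1 hi.2.1 with h | h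
    · exact hi.2.2.1 h
    · exact hi.2.2.2 h
  -- all pairs of a class have the same direction
  have main : ∀ u v : ℕ, (∃ q, Imp adj (u, v) q) → ρ u < ρ v → T adj u v ∨ T adj v u := by
    intro u v hq huv
    have hall : ∀ q, Cls adj (u, v) q → ρ q.1 < ρ q.2 := by
      intro q h
      induction h with
      | refl => exact huv
      | tail _ hbc ih => exact hdir _ _ hbc ih
    -- a vertex with smallest `ρ`
    have hex : ∃ m i, (Tail adj (u, v) i ∨ Head adj (u, v) i) ∧ ρ i = m :=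
      ⟨_, u, Or.inl ⟨v, Relation.ReflTransGen.refl⟩, rfl⟩
    obtain ⟨i, hi, hm⟩ := Nat.find_spec hex
    have hnh : ¬ Head adj (u, v) i := by
      rintro ⟨j, hj⟩
      have h1 := hall _ hj
      have h2 := Nat.find_min' hex ⟨j, Or.inl ⟨i, hj⟩, rfl⟩
      simp only at h1
      omega
    have hti : Tail adj (u, v) i := hi.resolve_right hnh
    -- the smallest pure vertex
    have hex2 : ∃ k, ¬ (Tail adj (u, v) k ↔ Head adj (u, v) k) := ⟨i, fun e => hnh (e.1 hti)⟩
    have hk := Nat.find_spec hex2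
    have hkm : ∀ j < Nat.find hex2, (Tail adj (u, v) j ↔ Head adj (u, v) j) := fun j hj => by
      by_contra hcon
      exact Nat.find_min hex2 hj hcon
    generalize Nat.find hex2 = k at hk hkm
    by_cases ht : Tail adj (u, v) k
    · exact Or.inl ⟨hq, k, ht, fun e => hk ⟨fun _ => e, fun _ => ht⟩, hkm⟩
    · have hh : Head adj (u, v) k := by
        by_contra hh
        exact hk ⟨fun e => absurd e ht, fun e => absurd e hh⟩
      refine Or.inr ⟨?_, k, tail_rev.2 hh, fun e => ht (head_rev.1 e), fun j hj => ?_⟩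
      · obtain ⟨q, hq⟩ := hq
        exact ⟨rv q, hq.rev⟩
      · rw [tail_rev, head_rev (u := u) (v := v)]
        exact (hkm j hj).symm
  obtain ⟨q, hq'⟩ := id hq
  rcases lt_trichotomy (ρ u) (ρ v) with h | h | h
  · exact main u v hq h
  · exact absurd h (hne _ _ (hq'.symm hs))
  · exact (main v u ⟨rv q, hq'.rev⟩ h).symm

theorem ord : StOrd := by
  classical
  rintro n adj ⟨hlt, hs, hirr⟩ ⟨ρ, hρ⟩
  have hT := ori_T (adj := adj) hs
  have htot : ∀ {u v : ℕ}, (∃ q, Imp adj (u, v) q) → T adj u v ∨ T adj v u :=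
    fun hq => total hs hlt hρ hq
  have htrans : ∀ a b c, T adj a b → T adj b c → T adj a c := by
    intro a b c hab hbc
    rcases htot (sameSide hs hT hab hbc) with h | h
    · exact h
    · exact absurd ⟨hab, hbc, h⟩ (noTri hs hirr a b c)
  have hirrT : ∀ a, ¬ T adj a a := fun a h => hT.asymm _ _ h h
  -- `T` increases the rank
  have hrk : ∀ u v, u < n → T adj u v → rk adj n u < rk adj n v := by
    intro u v hu huv
    have hss : ((Finset.range n).filter fun w => T adj w u) ⊂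
        ((Finset.range n).filter fun w => T adj w v) := by
      rw [Finset.ssubset_iff_of_subset]
      · exact ⟨u, by simp [hu, huv], by simp [hirrT]⟩
      · intro w hw
        simp only [Finset.mem_filter, Finset.mem_range] at hw ⊢
        exact ⟨hw.1, htrans _ _ _ hw.2 huv⟩
    have h1 := Finset.card_lt_card hss
    unfold rk
    have h2 : n * (((Finset.range n).filter fun w => T adj w u).card + 1) ≤
        n * ((Finset.range n).filter fun w => T adj w v).card := Nat.mul_le_mul_left _ h1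
    rw [Nat.mul_add, Nat.mul_one] at h2
    omega
  refine ⟨?_, ?_⟩
  · intro i hi j hj he
    unfold rk at he
    have h1 : (n * ((Finset.range n).filter fun w => T adj w i).card + i) % n = i := by
      rw [Nat.mul_add_mod, Nat.mod_eq_of_lt hi]
    have h2 : (n * ((Finset.range n).filter fun w => T adj w j).card + j) % n = j := by
      rw [Nat.mul_add_mod, Nat.mod_eq_of_lt hj]
    rw [← h1, ← h2, he]
  · intro i j k l hij hkl hik hjl
    by_contra hcon
    push Not at hcon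
    have hi : Imp adj (i, j) (l, k) := ⟨hik, hjl, hcon.1, hcon.2⟩
    have hin := hlt _ _ hik
    have hjn := hlt _ _ hjl
    have hkn := hlt _ _ (hs _ _ hik)
    have hln := hlt _ _ (hs _ _ hjl)
    rcases htot ⟨_, hi⟩ with h | h
    · have := hrk _ _ hln (hT.imp _ _ _ _ h hi)
      omega
    · have := hrk _ _ hjn h
      omega

end Pool.Agent.K7.H89.ORD
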