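import Pool.Agent.K7.H89.ORD.Stm

set_option autoImplicit false

namespace Pool.Agent.K7.H89.ORD

variable {adj : ℕ → ℕ → Prop}

/-- reversal of a pair -/
def rv (p : ℕ × ℕ) : ℕ × ℕ := (p.2, p.1)

@[simp] theorem rv_mk (a b : ℕ) : rv (a, b) = (b, a) := rfl

@[simp] theorem rv_rv (p : ℕ × ℕ) : rv (rv p) = p := rfl

theorem Imp.rev {p q : ℕ × ℕ} (h : Imp adj p q) : Imp adj (rv p) (rv q) :=
  ⟨h.2.1, h.1, h.2.2.2, h.2.2.1⟩

theorem Imp.symm (hs : ∀ i j, adj i j → adj j i) {p q : ℕ × ℕ} (h : Imp adj p q) : Imp adj q p :=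
  ⟨hs _ _ h.2.1, hs _ _ h.1, fun h' => h.2.2.1 (hs _ _ h'), fun h' => h.2.2.2 (hs _ _ h')⟩

theorem Cls.rev {p q : ℕ × ℕ} (h : Cls adj p q) : Cls adj (rv p) (rv q) := by
  induction h with
  | refl => exact Relation.ReflTransGen.refl
  | tail _ hbc ih => exact ih.tail hbc.rev

theorem Cls.symm (hs : ∀ i j, adj i j → adj j i) {p q : ℕ × ℕ} (h : Cls adj p q) :
    Cls adj q p := by
  induction h with
  | refl => exact Relation.ReflTransGen.refl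
  | tail _ hbc ih => exact Relation.ReflTransGen.head (hbc.symm hs) ih

/-- a relation that is a union of classes, one out of every opposite pair at most -/
structure Ori (adj : ℕ → ℕ → Prop) (S : ℕ → ℕ → Prop) : Prop where
  nt : ∀ u v, S u v → ∃ q, Imp adj (u, v) q
  imp : ∀ u v y x, S u v → Imp adj (u, v) (y, x) → S y x
  asymm : ∀ u v, S u v → ¬ S v u

/-- two pairs with a common link -/
def I2 (adj : ℕ → ℕ → Prop) (p p' : ℕ × ℕ) : Prop := ∃ q, Imp adj p q ∧ Imp adj p' q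

theorem I2.rev {p q : ℕ × ℕ} (h : I2 adj p q) : I2 adj (rv p) (rv q) := by
  obtain ⟨r, h1, h2⟩ := h
  exact ⟨rv r, h1.rev, h2.rev⟩

theorem Ori.rev {S : ℕ → ℕ → Prop} (h : Ori adj S) : Ori adj (fun u v => S v u) where
  nt u v hS := by
    obtain ⟨q, hq⟩ := h.nt _ _ hS
    exact ⟨rv q, hq.rev⟩
  imp u v y x hS hi := h.imp v u x y hS hi.rev
  asymm u v hS := fun h' => h.asymm _ _ hS h'

theorem Ori.i2 (hs : ∀ i j, adj i j → adj j i) {S : ℕ → ℕ → Prop} (h : Ori adj S) {u v u' v' : ℕ}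
    (hS : S u v) (hi : I2 adj (u, v) (u', v')) : S u' v' := by
  obtain ⟨⟨y, x⟩, h1, h2⟩ := hi
  exact h.imp _ _ _ _ (h.imp _ _ _ _ hS h1) (h2.symm hs)

/-- the third vertex of a cyclic triangle does not distinguish the link -/
theorem unif (hs : ∀ i j, adj i j → adj j i) {S : ℕ → ℕ → Prop} (h : Ori adj S) {a b c y x : ℕ}
    (hab : S a b) (hbc : S b c) (hca : S c a) (hi : Imp adj (a, b) (y, x)) :
    adj c x ↔ adj c y := by
  have hyx : S y x := h.imp _ _ _ _ hab hi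
  obtain ⟨h1, h2, h3, h4⟩ := hi
  simp only at h1 h2 h3 h4
  constructor
  · intro hx
    by_contra hy
    have : Imp adj (c, b) (y, x) := ⟨hx, h2, hy, h4⟩
    exact h.asymm _ _ hbc (h.imp _ _ _ _ hyx (this.symm hs))
  · intro hy
    by_contra hx
    have : Imp adj (a, c) (y, x) := ⟨h1, hy, h3, hx⟩
    exact h.asymm _ _ hca (h.imp _ _ _ _ hyx (this.symm hs))

theorem step1 (hs : ∀ i j, adj i j → adj j i) {S : ℕ → ℕ → Prop} (h : Ori adj S)
    {a b b' c y x : ℕ} (hab : S a b) (hbc : S b c) (hca : S c a) (hi : Imp adj (a, b) (y, x))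
    (hi' : Imp adj (a, b') (y, x)) : I2 adj (b, c) (b', c) := by
  have hu := unif hs h hab hbc hca hi
  obtain ⟨⟨s, t⟩, g1, g2, g3, g4⟩ := h.nt _ _ hbc
  obtain ⟨h1, h2, h3, h4⟩ := hi
  obtain ⟨k1, k2, k3, k4⟩ := hi'
  simp only at h1 h2 h3 h4 k1 k2 k3 k4 g1 g2 g3 g4
  -- `adj b t`, `adj c s`, `¬ adj b s`, `¬ adj c t`
  have no1 : ∀ p q, Imp adj (a, b) (p, q) → Imp adj (c, b) (p, q) → False := fun p q e1 e2 =>
    h.asymm _ _ hbc (h.i2 hs hab ⟨_, e1, e2⟩)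
  have no2 : ∀ p q, Imp adj (a, b) (p, q) → Imp adj (a, c) (p, q) → False := fun p q e1 e2 =>
    h.asymm _ _ hca (h.i2 hs hab ⟨_, e1, e2⟩)
  have hab' : S a b' := h.i2 hs hab ⟨(y, x), ⟨h1, h2, h3, h4⟩, ⟨k1, k2, k3, k4⟩⟩
  have no3 : ∀ p q, Imp adj (a, b') (p, q) → Imp adj (a, c) (p, q) → False := fun p q e1 e2 =>
    h.asymm _ _ hca (h.i2 hs hab' ⟨_, e1, e2⟩)
  by_cases hcx : adj c x
  · -- `c` sees `x` and `y`
    have hcy := hu.1 hcx
    -- `t`: seen by `b`, not by `c`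
    have hb't : adj b' t := by
      by_contra hb't
      by_cases hat : adj a t
      · exact no3 y t ⟨hat, k2, h3, hb't⟩ ⟨hat, hcy, h3, g4⟩
      · exact no1 t x ⟨h1, g1, hat, h4⟩ ⟨hcx, g1, g4, h4⟩
    exact ⟨(x, t), ⟨g1, hcx, h4, g4⟩, ⟨hb't, hcx, k4, g4⟩⟩
  · have hcy : ¬ adj c y := fun e => hcx (hu.2 e)
    -- `s`: seen by `c`, not by `b`
    have hb's : ¬ adj b' s := by
      intro hb's
      by_cases has : adj a s
      · exact no1 y s ⟨has, h2, h3, g3⟩ ⟨g2, h2, hcy, g3⟩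
      · exact no3 s x ⟨h1, hb's, has, k4⟩ ⟨h1, g2, has, hcx⟩
    exact ⟨(s, y), ⟨h2, g2, g3, hcy⟩, ⟨k2, g2, hb's, hcy⟩⟩

theorem step2 (hs : ∀ i j, adj i j → adj j i) {S : ℕ → ℕ → Prop} (h : Ori adj S)
    {a b a' c y x : ℕ} (hab : S a b) (hbc : S b c) (hca : S c a) (hi : Imp adj (a, b) (y, x))
    (hi' : Imp adj (a', b) (y, x)) : I2 adj (c, a) (c, a') :=
  (step1 hs h.rev (a := b) (b := a) (b' := a') (c := c) hab hca hbc hi.rev hi'.rev).rev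

/-- a cyclic triangle -/
def Tri (S : ℕ → ℕ → Prop) (a b c : ℕ) : Prop := S a b ∧ S b c ∧ S c a

theorem Tri.rot {S : ℕ → ℕ → Prop} {a b c : ℕ} (h : Tri S a b c) : Tri S b c a := ⟨h.2.1, h.2.2, h.1⟩

theorem triStep (hs : ∀ i j, adj i j → adj j i) {S : ℕ → ℕ → Prop} (h : Ori adj S)
    {a b c a' b' : ℕ} (ht : Tri S a b c) (hi : I2 adj (a, b) (a', b')) :
    Tri S a' b' c ∧ I2 adj (b, c) (b', c) ∧ I2 adj (c, a) (c, a') := by
  obtain ⟨hab, hbc, hca⟩ := ht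
  obtain ⟨⟨y, x⟩, h1, h2⟩ := hi
  have h3 : Imp adj (a, b') (y, x) := ⟨h1.1, h2.2.1, h1.2.2.1, h2.2.2.2⟩
  have e1 := step1 hs h hab hbc hca h1 h3
  have hab' : S a b' := h.i2 hs hab ⟨_, h1, h3⟩
  have hb'c : S b' c := h.i2 hs hbc e1
  have e2 := step2 hs h hab' hb'c hca h3 h2
  have hca' : S c a' := h.i2 hs hca e2
  have ha'b' : S a' b' := h.i2 hs hab' ⟨_, h3, h2⟩
  exact ⟨⟨ha'b', hb'c, hca'⟩, e1, e2⟩

/-- even classes -/
def R2 (adj : ℕ → ℕ → Prop) : ℕ × ℕ → ℕ × ℕ → Prop := Relation.ReflTransGen (I2 adj)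

theorem triR2 (hs : ∀ i j, adj i j → adj j i) {S : ℕ → ℕ → Prop} (h : Ori adj S)
    {a b c a' b' : ℕ} (ht : Tri S a b c) (hr : R2 adj (a, b) (a', b')) :
    Tri S a' b' c ∧ R2 adj (b, c) (b', c) ∧ R2 adj (c, a) (c, a') := by
  have key : ∀ q, R2 adj (a, b) q → Tri S q.1 q.2 c ∧ R2 adj (b, c) (q.2, c) ∧
      R2 adj (c, a) (c, q.1) := by
    intro q hq
    induction hq with
    | refl => exact ⟨ht, Relation.ReflTransGen.refl, Relation.ReflTransGen.refl⟩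
    | @tail p q _ hpq ih =>
      obtain ⟨i1, i2, i3⟩ := ih
      obtain ⟨j1, j2, j3⟩ := triStep hs h i1 hpq
      exact ⟨j1, i2.tail j2, i3.tail j3⟩
  exact key _ hr

/-- a class is an even class or an odd class -/
theorem cls_cases (hs : ∀ i j, adj i j → adj j i) {p q : ℕ × ℕ} (h : Cls adj p q) :
    R2 adj p q ∨ ∃ p', R2 adj p p' ∧ Imp adj p' q := by
  induction h with
  | refl => exact Or.inl Relation.ReflTransGen.refl
  | @tail b c _ hbc ih =>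
    rcases ih with ih | ⟨p', h1, h2⟩
    · exact Or.inr ⟨b, ih, hbc⟩
    · exact Or.inl (h1.tail ⟨b, h2, hbc.symm hs⟩)

theorem r2_cls (hs : ∀ i j, adj i j → adj j i) {p q : ℕ × ℕ} (h : R2 adj p q) : Cls adj p q := by
  induction h with
  | refl => exact Relation.ReflTransGen.refl
  | @tail b c _ hbc ih =>
    obtain ⟨r, h1, h2⟩ := hbc
    exact (ih.tail h1).tail (h2.symm hs)

/-- the two types of cyclic triangles -/
theorem types (hs : ∀ i j, adj i j → adj j i) {S : ℕ → ℕ → Prop} (h : Ori adj S)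
    {a b c y x : ℕ} (ht : Tri S a b c) (hi : Imp adj (a, b) (y, x)) :
    (∃ z, Imp adj (b, c) (z, y) ∧ Imp adj (c, a) (x, z) ∧ Tri S y x z) ∨
    (∃ z, Imp adj (b, c) (x, z) ∧ Imp adj (c, a) (z, y) ∧ Tri S y x z) := by
  obtain ⟨hab, hbc, hca⟩ := ht
  have hu := unif hs h hab hbc hca hi
  have hyx := h.imp _ _ _ _ hab hi
  obtain ⟨⟨s, t⟩, g1, g2, g3, g4⟩ := h.nt _ _ hbc
  have h1 := hi.1
  have h2 := hi.2.1
  have h3 := hi.2.2.1
  have h4 := hi.2.2.2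
  simp only at h1 h2 h3 h4 g1 g2 g3 g4
  by_cases hcx : adj c x
  · right
    have hcy := hu.1 hcx
    have e1 : Imp adj (b, c) (x, t) := ⟨g1, hcx, h4, g4⟩
    have hat : adj a t := (unif hs h hbc hca hab e1).2 h1
    have e2 : Imp adj (c, a) (t, y) := ⟨hcy, hat, g4, h3⟩
    exact ⟨t, e1, e2, hyx, h.imp _ _ _ _ hbc e1, h.imp _ _ _ _ hca e2⟩
  · left
    have hcy : ¬ adj c y := fun e => hcx (hu.2 e)
    have e1 : Imp adj (b, c) (s, y) := ⟨h2, g2, g3, hcy⟩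
    have has : ¬ adj a s := fun e => h3 ((unif hs h hbc hca hab e1).2 e)
    have e2 : Imp adj (c, a) (x, s) := ⟨g2, h1, hcx, has⟩
    exact ⟨s, e1, e2, hyx, h.imp _ _ _ _ hca e2, h.imp _ _ _ _ hbc e1⟩

end Pool.Agent.K7.H89.ORD
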