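import Mathlib

/-!
# Strong orderings of graphs: an explicit rule

Two ordered pairs `(u, v)` and `(y, x)` of vertices are linked if `u` is adjacent to `x`, `v` to `y`,
but `u` not to `y` and `v` not to `x`.  In a strong ordering linked pairs have the same direction.
A class is a connected component of this relation.  We orient a class so that the smallest vertex
which is the first vertex of one of its pairs or the second vertex of one of its pairs, but not both,
is a first vertex.
-/

set_option autoImplicit false

namespace Pool.Agent.K7.H89.ORD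

variable (adj : ℕ → ℕ → Prop)

/-- `p = (u, v)` and `q = (y, x)` are linked: `u ~ x`, `v ~ y`, `u ≁ y`, `v ≁ x` -/
def Imp (p q : ℕ × ℕ) : Prop :=
  adj p.1 q.2 ∧ adj p.2 q.1 ∧ ¬ adj p.1 q.1 ∧ ¬ adj p.2 q.2

/-- the pairs `p` and `q` are in the same class -/
def Cls (p q : ℕ × ℕ) : Prop := Relation.ReflTransGen (Imp adj) p q

/-- `i` is the first vertex of a pair of the class of `p` -/
def Tail (p : ℕ × ℕ) (i : ℕ) : Prop := ∃ j, Cls adj p (i, j)

/-- `i` is the second vertex of a pair of the class of `p` -/
def Head (p : ℕ × ℕ) (i : ℕ) : Prop := ∃ j, Cls adj p (j, i)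

/-- the rule: the smallest pure vertex of the class of `(u, v)` is a first vertex -/
def T (u v : ℕ) : Prop :=
  (∃ q, Imp adj (u, v) q) ∧
    ∃ i, Tail adj (u, v) i ∧ ¬ Head adj (u, v) i ∧ ∀ j < i, (Tail adj (u, v) j ↔ Head adj (u, v) j)

/-- the graph has the vertices `0, ..., n - 1`, it is symmetric and has no loops -/
structure Gr (n : ℕ) : Prop where
  lt : ∀ i j, adj i j → i < n
  symm : ∀ i j, adj i j → adj j i
  irr : ∀ i, ¬ adj i i

/-- the numbering `ρ` of the vertices gives a strong ordering -/
def SOrd (n : ℕ) (ρ : ℕ → ℕ) : Prop :=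
  (∀ i < n, ∀ j < n, ρ i = ρ j → i = j) ∧
    ∀ i j k l, ρ i < ρ j → ρ k < ρ l → adj i k → adj j l → adj i l ∨ adj j k

open Classical in
/-- the rank of the vertex `v` -/
noncomputable def rk (n : ℕ) (v : ℕ) : ℕ :=
  n * ((Finset.range n).filter fun u => T adj u v).card + v

/-- if there is a strong ordering, then the rule gives one -/
def StOrd : Prop := ∀ (n : ℕ) (adj : ℕ → ℕ → Prop), Gr adj n → (∃ ρ, SOrd adj n ρ) →
  SOrd adj n (rk adj n)

end Pool.Agent.K7.H89.ORD
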